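import Pool.Agent.W_aaa0df_h18.Twist18
import Pool.Agent.W_aaa0df_h86.BallB

set_option autoImplicit false

/-!
# Prescribed splitting patterns: the twists of one discriminant and the problem's count `N(d)`
-/

namespace H18T

open Finset Real Twist MPaaa0df Filter

/-- Comparison of sizes, any signs. -/
theorem size_compare' {d d₀ e m : ℤ} (hF : Fund d) (hF₀ : Fund d₀) (h : d * d₀ = e * m ^ 2) :
    |(d : ℝ)| ≤ 4 * |(d₀ : ℝ)| * |(e : ℝ)| := by
  obtain ⟨s, j, hs, hj, hn, _⟩ := kernb_nat hF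
  obtain ⟨s₀, j₀, hs₀, hj₀, hn₀, _⟩ := kernb_nat hF₀
  have h0 : d * d₀ ≠ 0 := mul_ne_zero (fund_ne hF) (fund_ne hF₀)
  have he' : e ≠ 0 := by rintro rfl; apply h0; rw [h]; simp
  have hk' : m ≠ 0 := by rintro rfl; apply h0; rw [h]; simp
  have he : e.natAbs ≠ 0 := Int.natAbs_ne_zero.2 he'
  have hk : m.natAbs ≠ 0 := Int.natAbs_ne_zero.2 hk'
  have h1 : (s * s₀) * (2 ^ j * 2 ^ j₀) ^ 2 = e.natAbs * m.natAbs ^ 2 := by
    have : d.natAbs * d₀.natAbs = e.natAbs * m.natAbs ^ 2 := by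
      rw [← Int.natAbs_mul, h, Int.natAbs_mul, Int.natAbs_pow]
    rw [← this, hn, hn₀]; ring
  have hdvd : s ∣ s₀ * e.natAbs := by
    rw [← Nat.factorization_le_iff_dvd hs.ne_zero (mul_ne_zero hs₀.ne_zero he)]
    intro p
    have h2 : ((s * s₀) * (2 ^ j * 2 ^ j₀) ^ 2).factorization p =
        (e.natAbs * m.natAbs ^ 2).factorization p := by
      rw [h1]
    rw [Nat.factorization_mul (mul_ne_zero hs.ne_zero hs₀.ne_zero) (by positivity),
      Nat.factorization_mul hs.ne_zero hs₀.ne_zero, Nat.factorization_mul he (by positivity),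
      Nat.factorization_pow, Nat.factorization_pow] at h2
    simp only [Finsupp.add_apply, Finsupp.smul_apply, smul_eq_mul] at h2
    rw [Nat.factorization_mul hs₀.ne_zero he, Finsupp.add_apply]
    have h3 := kernb_fac_le hs p
    have h4 := kernb_fac_le hs₀ p
    omega
  have h2 : s ≤ s₀ * e.natAbs :=
    Nat.le_of_dvd (Nat.pos_of_ne_zero (mul_ne_zero hs₀.ne_zero he)) hdvd
  have h3 : d.natAbs ≤ 4 * d₀.natAbs * e.natAbs := by
    rw [hn, hn₀]
    have ha : (2 ^ j) ^ 2 ≤ 4 := by interval_cases j <;> norm_num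
    have hb : 1 ≤ (2 ^ j₀) ^ 2 := Nat.one_le_pow _ _ (by positivity)
    calc s * (2 ^ j) ^ 2 ≤ (s₀ * e.natAbs) * 4 := Nat.mul_le_mul h2 ha
      _ = 4 * (s₀ * 1) * e.natAbs := by ring
      _ ≤ 4 * (s₀ * (2 ^ j₀) ^ 2) * e.natAbs := by gcongr
  have h4 : |d| ≤ 4 * |d₀| * |e| := by
    rw [Int.abs_eq_natAbs, Int.abs_eq_natAbs, Int.abs_eq_natAbs]
    exact_mod_cast h3
  exact_mod_cast h4

/-- prime factors of a twist, any signs -/
theorem omega_near' {d d₀ e m : ℤ} (hF : Fund d) (hF₀ : Fund d₀) (he : e ≠ 0)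
    (h : d * d₀ = e * m ^ 2) :
    d.natAbs.primeFactors.card ≤
      d₀.natAbs.primeFactors.card + e.natAbs.primeFactors.card + 1 := by
  classical
  have hsub : d.natAbs.primeFactors ⊆ (d₀.natAbs.primeFactors ∪ e.natAbs.primeFactors) ∪ {2} := by
    intro p hp
    obtain ⟨hp1, hp2, _⟩ := Nat.mem_primeFactors.1 hp
    rw [Finset.mem_union, Finset.mem_union, Finset.mem_singleton]
    by_contra hcon
    push Not at hcon
    obtain ⟨⟨h1, h2⟩, h3⟩ := hcon
    have h4 : ¬ (p : ℤ) ∣ d₀ := fun h5 =>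
      h1 (Nat.mem_primeFactors.2 ⟨hp1, Int.natCast_dvd.1 h5, Int.natAbs_ne_zero.2 (fund_ne hF₀)⟩)
    have h5 : ¬ (p : ℤ) ∣ e := fun h6 =>
      h2 (Nat.mem_primeFactors.2 ⟨hp1, Int.natCast_dvd.1 h6, Int.natAbs_ne_zero.2 he⟩)
    have h6 : (p : ℤ) ∣ d := Int.natCast_dvd.2 hp2
    have hpi : Prime (p : ℤ) := Nat.prime_iff_prime_int.1 hp1
    have h7 : (p : ℤ) ∣ m := by
      have h8 : (p : ℤ) ∣ e * m ^ 2 := h ▸ (h6.mul_right d₀)
      rcases hpi.dvd_or_dvd h8 with h9 | h9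
      · exact absurd h9 h5
      · exact hpi.dvd_of_dvd_pow h9
    have h8 : (p : ℤ) ^ 2 ∣ d * d₀ := by
      rw [h]
      exact (pow_dvd_pow_of_dvd h7 2).mul_left _
    have h9 : IsCoprime ((p : ℤ) ^ 2) d₀ := (hpi.coprime_iff_not_dvd.2 h4).pow_left
    exact fund_sq hF hp1 h3 (h9.dvd_of_dvd_mul_right h8)
  calc d.natAbs.primeFactors.card
      ≤ ((d₀.natAbs.primeFactors ∪ e.natAbs.primeFactors) ∪ {2}).card := Finset.card_le_card hsub
    _ ≤ (d₀.natAbs.primeFactors ∪ e.natAbs.primeFactors).card + ({2} : Finset ℕ).card :=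
        Finset.card_union_le _ _
    _ ≤ _ := by
        have := Finset.card_union_le d₀.natAbs.primeFactors e.natAbs.primeFactors
        rw [Finset.card_singleton]
        omega

/-- number of prime factors: `ω(n) ≤ 2 log n` -/
theorem omega_le' {n : ℕ} (hn : n ≠ 0) : (n.primeFactors.card : ℝ) ≤ 2 * log n := by
  have h1 : 2 ^ n.primeFactors.card ≤ ∏ p ∈ n.primeFactors, p := by
    rw [← Finset.prod_const]
    exact Finset.prod_le_prod' fun p hp => (Nat.prime_of_mem_primeFactors hp).two_le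
  have h2 : ∏ p ∈ n.primeFactors, p ≤ n :=
    Nat.le_of_dvd (Nat.pos_of_ne_zero hn) (Nat.prod_primeFactors_dvd n)
  have h3 : ((2 ^ n.primeFactors.card : ℕ) : ℝ) ≤ n := by exact_mod_cast h1.trans h2
  have h4 := Real.log_le_log (by positivity) h3
  rw [Nat.cast_pow, Real.log_pow] at h4
  have h5 := Real.log_two_gt_d9
  have h6 : (0 : ℝ) ≤ (n.primeFactors.card : ℝ) := Nat.cast_nonneg _
  push_cast at h4
  nlinarith

/-- The sum over the primes which are not inert in terms of the number of split primes and the number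
of prime factors. -/
theorem nonInert_le {d : ℤ} (hd : d ≠ 0) {x y : ℝ} (hx : 0 < x) :
    nonInertSum d x y ≤ ((splitCount d y : ℝ) + d.natAbs.primeFactors.card) / x := by
  classical
  unfold nonInertSum
  set S := (Finset.range ⌈y⌉₊).filter (fun p : ℕ => p.Prime ∧ x ≤ (p : ℝ) ∧ (p : ℝ) < y ∧
    ∃ t : ℤ, (4 * (p : ℤ)) ∣ t ^ 2 - d) with hS
  set A := (ballb_fin d y).toFinset with hA
  have hAc : A.card = splitCount d y := by
    rw [hA, splitCount, ← Set.ncard_eq_toFinset_card _ (ballb_fin d y)]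
  have hsub : S ⊆ A ∪ d.natAbs.primeFactors := by
    intro p hp
    rw [hS, Finset.mem_filter] at hp
    obtain ⟨-, h2, -, h4, h5⟩ := hp
    rw [Finset.mem_union]
    by_cases hpd : (p : ℤ) ∣ d
    · right
      exact Nat.mem_primeFactors.2 ⟨h2, Int.natCast_dvd.1 hpd, Int.natAbs_ne_zero.2 hd⟩
    · left
      rw [hA, Set.Finite.mem_toFinset]
      exact ⟨h2, h4, hpd, h5⟩
  have hcard : (S.card : ℝ) ≤ (splitCount d y : ℝ) + d.natAbs.primeFactors.card := by
    have h1 := (Finset.card_le_card hsub).trans (Finset.card_union_le _ _)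
    rw [hAc] at h1
    exact_mod_cast h1
  calc ∑ p ∈ S, 1 / (p : ℝ) ≤ ∑ _p ∈ S, 1 / x := by
        refine Finset.sum_le_sum fun p hp => ?_
        rw [hS, Finset.mem_filter] at hp
        exact one_div_le_one_div_of_le hx hp.2.2.1
    _ = S.card / x := by
        rw [Finset.sum_const, nsmul_eq_mul, mul_one_div]
    _ ≤ _ := by gcongr

/-- eventual inequalities -/
theorem ev18 (κ a b δ X₁ : ℝ) (hκ : 0 < κ) (ha : 0 < a) (hδ : 0 < δ) :
    ∃ L : ℝ, ∀ l : ℝ, L ≤ l → 20 ≤ l ∧ X₁ ≤ l ^ a ∧ log 4 + a * log l ≤ l / 2 ∧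
      (2 * l) ^ κ + l ^ κ + b * log l + 1 < δ * (l ^ κ * l ^ κ) := by
  obtain ⟨B, hB⟩ : ∃ B : ℝ, B = (2 : ℝ) ^ κ + 2 + |b| := ⟨_, rfl⟩
  have e1 := (tendsto_rpow_atTop ha).eventually_ge_atTop X₁
  have e2 := Real.isLittleO_log_id_atTop.bound
    (show (0 : ℝ) < 1 / (4 * a) by positivity)
  have e3 := (isLittleO_log_rpow_atTop hκ).bound (show (0 : ℝ) < 1 by norm_num)
  have e4 := (tendsto_rpow_atTop hκ).eventually_ge_atTop (B / δ + 1)
  obtain ⟨L, hL⟩ := (((e1.and e2).and (e3.and e4)).and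
    (eventually_ge_atTop (20 : ℝ))).exists_forall_of_atTop
  refine ⟨L, fun l hl => ?_⟩
  obtain ⟨⟨⟨h1, h2⟩, h3, h4⟩, h5⟩ := hL l hl
  have hp : 0 < l := by linarith
  have hlog : 0 ≤ log l := Real.log_nonneg (by linarith)
  rw [Real.norm_eq_abs, abs_of_nonneg hlog] at h2 h3
  simp only [id, Real.norm_eq_abs, abs_of_pos hp] at h2
  rw [Real.norm_eq_abs, abs_of_nonneg (by positivity), one_mul] at h3
  have hB0 : 0 < B := by rw [hB]; positivity
  have h41 : 1 ≤ l ^ κ := by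
    have : 0 < B / δ := by positivity
    linarith
  refine ⟨h5, h1, ?_, ?_⟩
  · have h6 : a * log l ≤ l / 4 := by
      calc a * log l ≤ a * (1 / (4 * a) * l) := by gcongr
        _ = l / 4 := by field_simp
    have h7 : log 4 ≤ 2 := by
      have h8 : log 4 = 2 * log 2 := by
        rw [show (4 : ℝ) = 2 ^ 2 by norm_num, Real.log_pow]; norm_num
      have := Real.log_two_lt_d9
      linarith
    linarith
  · rw [Real.mul_rpow (by norm_num) hp.le]
    have h6 : b * log l ≤ |b| * l ^ κ :=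
      (mul_le_mul_of_nonneg_right (le_abs_self b) hlog).trans
        (mul_le_mul_of_nonneg_left h3 (abs_nonneg b))
    have h7 : B < δ * l ^ κ := by
      have h8 : B / δ < l ^ κ := by linarith
      rw [div_lt_iff₀ hδ] at h8
      linarith
    calc (2 : ℝ) ^ κ * l ^ κ + l ^ κ + b * log l + 1
        ≤ (2 : ℝ) ^ κ * l ^ κ + l ^ κ + |b| * l ^ κ + l ^ κ := by linarith
      _ = B * l ^ κ := by rw [hB]; ring
      _ < (δ * l ^ κ) * l ^ κ := by
          apply mul_lt_mul_of_pos_right h7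
          linarith
      _ = _ := by ring

/-- The twists of one discriminant and the problem's count `N(d)` of split primes. -/
theorem twists_count {k : ℕ} {c θ δ X₁ : ℝ} (hc : 0 < c) (hθ : 0 < θ) (hδ : 0 < δ)
    (hD : ∀ X : ℝ, X₁ ≤ X → ∀ d₀ : ℤ, Fund d₀ → ∀ F : Finset ℤ,
      (∀ d ∈ F, Fund d ∧ (∃ e m : ℤ, Fund e ∧ |(e : ℝ)| ≤ X ∧ d * d₀ = e * m ^ 2) ∧
        nonInertSum d (X ^ c) (X ^ θ) < δ) → F.card ≤ 2 * k) :
    ∃ κ D : ℝ, 0 < κ ∧ ∀ d₀ : ℤ, Fund d₀ → D ≤ |(d₀ : ℝ)| →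
      (d₀.natAbs.primeFactors.card : ℝ) ≤ log |(d₀ : ℝ)| ^ κ → ∀ F : Finset ℤ,
      (∀ d ∈ F, Fund d ∧ (∃ e m : ℤ, Fund e ∧ |(e : ℝ)| ≤ log |(d₀ : ℝ)| ^ (2 / θ) ∧
        d * d₀ = e * m ^ 2) ∧ (N d : ℝ) < log |(d : ℝ)| ^ κ) → F.card ≤ 2 * k := by
  obtain ⟨κ, hκ⟩ : ∃ κ : ℝ, κ = c / θ := ⟨_, rfl⟩
  have hκ0 : 0 < κ := by rw [hκ]; positivity
  obtain ⟨L, hL⟩ := ev18 κ (2 / θ) (2 * (2 / θ)) δ X₁ hκ0 (by positivity) hδ
  refine ⟨κ, Real.exp L, hκ0, ?_⟩
  intro d₀ hF₀ hd₀ hom F hF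
  set l : ℝ := log |(d₀ : ℝ)| with hl
  have hLl : L ≤ l := by
    rw [hl, Real.le_log_iff_exp_le (lt_of_lt_of_le (Real.exp_pos _) hd₀)]
    exact hd₀
  obtain ⟨h20, hX1, hlog, hfin⟩ := hL l hLl
  have hl0 : 0 < l := by linarith
  have hlog0 : 0 ≤ log l := Real.log_nonneg (by linarith)
  set X : ℝ := l ^ (2 / θ) with hX
  have hXθ : X ^ θ = l ^ (2 : ℕ) := by
    rw [hX, ← Real.rpow_mul hl0.le, div_mul_cancel₀ _ hθ.ne']
    norm_num
  have hXc : X ^ c = l ^ κ * l ^ κ := by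
    rw [hX, ← Real.rpow_mul hl0.le, ← Real.rpow_add hl0]
    congr 1
    rw [hκ]
    ring
  have hXpos : 0 < X := Real.rpow_pos_of_pos hl0 _
  have hlogX : log X = (2 / θ) * log l := by rw [hX, Real.log_rpow hl0]
  refine hD X hX1 d₀ hF₀ F ?_
  intro d hd
  obtain ⟨hFd, ⟨e, m, hFe, heX, hem⟩, hN⟩ := hF d hd
  refine ⟨hFd, ⟨e, m, hFe, heX, hem⟩, ?_⟩
  have hd0 : d ≠ 0 := fund_ne hFd
  have he0 : e ≠ 0 := fund_ne hFe
  have hda : 0 < |(d : ℝ)| := abs_pos.2 (by exact_mod_cast hd0)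
  have hd0a : 0 < |(d₀ : ℝ)| := abs_pos.2 (by exact_mod_cast fund_ne hF₀)
  have hea : 0 < |(e : ℝ)| := abs_pos.2 (by exact_mod_cast he0)
  have hgen : ∀ a b : ℝ, 0 < a → 0 < b → a ≤ 4 * b * |(e : ℝ)| → log a ≤ log b + log 4 + log X := by
    intro a b ha hb hab
    have h1 : a ≤ b * 4 * X := by
      calc a ≤ 4 * b * |(e : ℝ)| := hab
        _ ≤ 4 * b * X := mul_le_mul_of_nonneg_left heX (by positivity)
        _ = b * 4 * X := by ring
    calc log a ≤ log (b * 4 * X) := Real.log_le_log ha h1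
      _ = _ := by
        rw [Real.log_mul (by positivity) hXpos.ne', Real.log_mul hb.ne' (by norm_num)]
  have hup : log |(d : ℝ)| ≤ l + log 4 + log X :=
    hgen _ _ hda hd0a (size_compare' hFd hF₀ hem)
  have hlo : l ≤ log |(d : ℝ)| + log 4 + log X :=
    hgen _ _ hd0a hda (size_compare' hF₀ hFd (by rw [← hem]; ring))
  rw [hlogX] at hup hlo
  have hup2 : log |(d : ℝ)| ≤ 2 * l := by linarith
  have hlo2 : l / 2 ≤ log |(d : ℝ)| := by linarith
  have hthr : X ^ θ ≤ threshold d := by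
    rw [hXθ, threshold]
    have h1 : 2 ≤ log (log |(d : ℝ)|) := by
      rw [Real.le_log_iff_exp_le (by linarith)]
      exact ballb_exp.trans (by linarith)
    have h2 : (l / 2) ^ 2 ≤ log |(d : ℝ)| ^ 2 := by gcongr
    have h3 : (2 : ℝ) ^ 2 ≤ log (log |(d : ℝ)|) ^ 2 := by gcongr
    calc l ^ 2 = (l / 2) ^ 2 * 2 ^ 2 := by ring
      _ ≤ _ := by gcongr
  have hcnt : (splitCount d (X ^ θ) : ℝ) ≤ N d := by
    exact_mod_cast ballb_mono d hthr
  have hom1 : (d.natAbs.primeFactors.card : ℝ) ≤ l ^ κ + 2 * (2 / θ) * log l + 1 := by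
    have h1 : (d.natAbs.primeFactors.card : ℝ) ≤
        d₀.natAbs.primeFactors.card + e.natAbs.primeFactors.card + 1 := by
      exact_mod_cast omega_near' hFd hF₀ he0 hem
    have h2 := omega_le' (Int.natAbs_ne_zero.2 he0)
    have h3 : log (e.natAbs : ℝ) ≤ log X := by
      apply Real.log_le_log
      · exact_mod_cast Int.natAbs_pos.2 he0
      · have : ((e.natAbs : ℕ) : ℝ) = |(e : ℝ)| := by
          rw [← Int.cast_natCast, Int.natCast_natAbs, Int.cast_abs]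
        rw [this]
        exact heX
    rw [hlogX] at h3
    linarith
  have hxpos : 0 < X ^ c := Real.rpow_pos_of_pos hXpos _
  calc nonInertSum d (X ^ c) (X ^ θ)
      ≤ ((splitCount d (X ^ θ) : ℝ) + d.natAbs.primeFactors.card) / X ^ c :=
        nonInert_le hd0 hxpos
    _ < δ := by
        rw [div_lt_iff₀ hxpos, hXc]
        have h1 : log |(d : ℝ)| ^ κ ≤ (2 * l) ^ κ :=
          Real.rpow_le_rpow (by linarith) hup2 hκ0.le
        linarith

end H18T
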