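import Pool.Agent.W_aaa0df_h18.Twist18M
import Pool.Agent.W_aaa0df_h18.Count18

set_option autoImplicit false

/-!
# Prescribed splitting patterns: the problem's count `N(d)`, with any bound `M` for the number of exceptions
-/

namespace H18T

open Finset Real Twist MPaaa0df Filter

/-- The twists of one discriminant and the problem's count `N(d)` of split primes. -/
theorem twists_countM {M : ℕ} {c θ δ X₁ : ℝ} (hc : 0 < c) (hθ : 0 < θ) (hδ : 0 < δ)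
    (hD : ∀ X : ℝ, X₁ ≤ X → ∀ d₀ : ℤ, Fund d₀ → ∀ F : Finset ℤ,
      (∀ d ∈ F, Fund d ∧ (∃ e m : ℤ, Fund e ∧ |(e : ℝ)| ≤ X ∧ d * d₀ = e * m ^ 2) ∧
        nonInertSum d (X ^ c) (X ^ θ) < δ) → F.card ≤ M) :
    ∃ κ D : ℝ, 0 < κ ∧ ∀ d₀ : ℤ, Fund d₀ → D ≤ |(d₀ : ℝ)| →
      (d₀.natAbs.primeFactors.card : ℝ) ≤ log |(d₀ : ℝ)| ^ κ → ∀ F : Finset ℤ,
      (∀ d ∈ F, Fund d ∧ (∃ e m : ℤ, Fund e ∧ |(e : ℝ)| ≤ log |(d₀ : ℝ)| ^ (2 / θ) ∧
        d * d₀ = e * m ^ 2) ∧ (N d : ℝ) < log |(d : ℝ)| ^ κ) → F.card ≤ M := by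
  obtain ⟨κ, hκ⟩ : ∃ κ : ℝ, κ = c / θ := ⟨_, rfl⟩
  have hκ0 : 0 < κ := by rw [hκ]; positivity
  obtain ⟨L, hL⟩ := ev18 κ (2 / θ) (2 * (2 / θ)) δ X₁ hκ0 (by positivity) hδ
  refine ⟨κ, Real.exp L, hκ0, ?_⟩
  intro d₀ hF₀ hd₀ hom F hF
  set l : ℝ := log |(d₀ : ℝ)| with hl
  have hLl : L ≤ l := by
    rw [hl, Real.le_log_iff_exp_le (lt_of_lt_of_le (Real.exp_pos _) hd₀)]
    exact hd₀
  obtain ⟨h20, hX1, hlog, hfin⟩ := hL l hLl
  have hl0 : 0 < l := by linarith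
  have hlog0 : 0 ≤ log l := Real.log_nonneg (by linarith)
  set X : ℝ := l ^ (2 / θ) with hX
  have hXθ : X ^ θ = l ^ (2 : ℕ) := by
    rw [hX, ← Real.rpow_mul hl0.le, div_mul_cancel₀ _ hθ.ne']
    norm_num
  have hXc : X ^ c = l ^ κ * l ^ κ := by
    rw [hX, ← Real.rpow_mul hl0.le, ← Real.rpow_add hl0]
    congr 1
    rw [hκ]
    ring
  have hXpos : 0 < X := Real.rpow_pos_of_pos hl0 _
  have hlogX : log X = (2 / θ) * log l := by rw [hX, Real.log_rpow hl0]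
  refine hD X hX1 d₀ hF₀ F ?_
  intro d hd
  obtain ⟨hFd, ⟨e, m, hFe, heX, hem⟩, hN⟩ := hF d hd
  refine ⟨hFd, ⟨e, m, hFe, heX, hem⟩, ?_⟩
  have hd0 : d ≠ 0 := fund_ne hFd
  have he0 : e ≠ 0 := fund_ne hFe
  have hda : 0 < |(d : ℝ)| := abs_pos.2 (by exact_mod_cast hd0)
  have hd0a : 0 < |(d₀ : ℝ)| := abs_pos.2 (by exact_mod_cast fund_ne hF₀)
  have hea : 0 < |(e : ℝ)| := abs_pos.2 (by exact_mod_cast he0)
  have hgen : ∀ a b : ℝ, 0 < a → 0 < b → a ≤ 4 * b * |(e : ℝ)| → log a ≤ log b + log 4 + log X := by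
    intro a b ha hb hab
    have h1 : a ≤ b * 4 * X := by
      calc a ≤ 4 * b * |(e : ℝ)| := hab
        _ ≤ 4 * b * X := mul_le_mul_of_nonneg_left heX (by positivity)
        _ = b * 4 * X := by ring
    calc log a ≤ log (b * 4 * X) := Real.log_le_log ha h1
      _ = _ := by
        rw [Real.log_mul (by positivity) hXpos.ne', Real.log_mul hb.ne' (by norm_num)]
  have hup : log |(d : ℝ)| ≤ l + log 4 + log X :=
    hgen _ _ hda hd0a (size_compare' hFd hF₀ hem)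
  have hlo : l ≤ log |(d : ℝ)| + log 4 + log X :=
    hgen _ _ hd0a hda (size_compare' hF₀ hFd (by rw [← hem]; ring))
  rw [hlogX] at hup hlo
  have hup2 : log |(d : ℝ)| ≤ 2 * l := by linarith
  have hlo2 : l / 2 ≤ log |(d : ℝ)| := by linarith
  have hthr : X ^ θ ≤ threshold d := by
    rw [hXθ, threshold]
    have h1 : 2 ≤ log (log |(d : ℝ)|) := by
      rw [Real.le_log_iff_exp_le (by linarith)]
      exact ballb_exp.trans (by linarith)
    have h2 : (l / 2) ^ 2 ≤ log |(d : ℝ)| ^ 2 := by gcongr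
    have h3 : (2 : ℝ) ^ 2 ≤ log (log |(d : ℝ)|) ^ 2 := by gcongr
    calc l ^ 2 = (l / 2) ^ 2 * 2 ^ 2 := by ring
      _ ≤ _ := by gcongr
  have hcnt : (splitCount d (X ^ θ) : ℝ) ≤ N d := by
    exact_mod_cast ballb_mono d hthr
  have hom1 : (d.natAbs.primeFactors.card : ℝ) ≤ l ^ κ + 2 * (2 / θ) * log l + 1 := by
    have h1 : (d.natAbs.primeFactors.card : ℝ) ≤
        d₀.natAbs.primeFactors.card + e.natAbs.primeFactors.card + 1 := by
      exact_mod_cast omega_near' hFd hF₀ he0 hem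
    have h2 := omega_le' (Int.natAbs_ne_zero.2 he0)
    have h3 : log (e.natAbs : ℝ) ≤ log X := by
      apply Real.log_le_log
      · exact_mod_cast Int.natAbs_pos.2 he0
      · have : ((e.natAbs : ℕ) : ℝ) = |(e : ℝ)| := by
          rw [← Int.cast_natCast, Int.natCast_natAbs, Int.cast_abs]
        rw [this]
        exact heX
    rw [hlogX] at h3
    linarith
  have hxpos : 0 < X ^ c := Real.rpow_pos_of_pos hXpos _
  calc nonInertSum d (X ^ c) (X ^ θ)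
      ≤ ((splitCount d (X ^ θ) : ℝ) + d.natAbs.primeFactors.card) / X ^ c :=
        nonInert_le hd0 hxpos
    _ < δ := by
        rw [div_lt_iff₀ hxpos, hXc]
        have h1 : log |(d : ℝ)| ^ κ ≤ (2 * l) ^ κ :=
          Real.rpow_le_rpow (by linarith) hup2 hκ0.le
        linarith

end H18T
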