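import Pool.Agent.W_aaa0df_h86.SplitA

set_option autoImplicit false

/-!
# Prescribed splitting patterns: from all discriminants to the twists of one discriminant

If, for every pattern `P`, at most `2 k` fundamental discriminants `e` with `|e| ≤ X` have a small sum of `1 / p`
over the primes `p` which behave in `ℚ(√e)` as the pattern prescribes, then for every fundamental discriminant
`d₀` at most `2 k` of the twists of `ℚ(√d₀)` by such `e` have a small sum of `1 / p` over the primes which are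
not inert.
-/

namespace H18T

open Finset Real Twist

open Classical in
/-- The sum of `1 / p` over the primes `p` with `x ≤ p < y`, `p ∤ d`, such that `p` splits in `ℚ(√d)` if `P p`
and is inert if not `P p`. -/
noncomputable def patSum (P : ℕ → Prop) (d : ℤ) (x y : ℝ) : ℝ :=
  ∑ p ∈ (Finset.range ⌈y⌉₊).filter (fun p : ℕ => p.Prime ∧ x ≤ (p : ℝ) ∧ (p : ℝ) < y ∧
    ¬ ((p : ℤ) ∣ d) ∧ (P p ↔ ∃ t : ℤ, (4 * (p : ℤ)) ∣ t ^ 2 - d)), 1 / (p : ℝ)

open Classical in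
/-- The sum of `1 / p` over the primes `p` with `x ≤ p < y` such that `d` is a square modulo `4 p`; for a
fundamental discriminant `d` these are the primes which are not inert in `ℚ(√d)`. -/
noncomputable def nonInertSum (d : ℤ) (x y : ℝ) : ℝ :=
  ∑ p ∈ (Finset.range ⌈y⌉₊).filter (fun p : ℕ => p.Prime ∧ x ≤ (p : ℝ) ∧ (p : ℝ) < y ∧
    ∃ t : ℤ, (4 * (p : ℤ)) ∣ t ^ 2 - d), 1 / (p : ℝ)

lemma sqf_int_eq {m m' c : ℤ} (hm : Squarefree m) (hm' : Squarefree m') (h : m * m' = c ^ 2) :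
    m = m' := by
  have h1 : m.natAbs * m'.natAbs = c.natAbs ^ 2 := by
    rw [← Int.natAbs_mul, h, Int.natAbs_pow]
  have h2 : m.natAbs = m'.natAbs := kernb_sqf_eq (kernb_int hm) (kernb_int hm') h1
  rcases Int.natAbs_eq_natAbs_iff.1 h2 with h3 | h3
  · exact h3
  · exfalso
    have h4 : m' ≠ 0 := hm'.ne_zero
    have h5 : 0 < m' ^ 2 := by positivity
    rw [h3] at h
    nlinarith [sq_nonneg c]

lemma fund_cases {d : ℤ} (hF : Fund d) :
    ∃ m : ℤ, Squarefree m ∧ ((d = m ∧ m % 4 = 1) ∨ (d = 4 * m ∧ (m % 4 = 2 ∨ m % 4 = 3))) := by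
  rcases hF with ⟨h, hs⟩ | ⟨m, h, hm, hs⟩
  · exact ⟨d, hs, Or.inl ⟨rfl, h⟩⟩
  · exact ⟨m, hs, Or.inr ⟨h, hm⟩⟩

/-- Distinct fundamental discriminants (of any sign) have a non-square product. -/
theorem fund_inj' {d d' r : ℤ} (hF : Fund d) (hF' : Fund d') (h : d * d' = r ^ 2) : d = d' := by
  obtain ⟨m, hm, hc⟩ := fund_cases hF
  obtain ⟨m', hm', hc'⟩ := fund_cases hF'
  have two : ∀ {a b : ℤ}, 4 * a = b ^ 2 → ∃ c, a = c ^ 2 := by
    intro a b hab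
    have h2 : (2 : ℤ) ∣ b := by
      have h3 : (2 : ℤ) ∣ b ^ 2 := ⟨2 * a, by rw [← hab]; ring⟩
      exact Int.prime_two.dvd_of_dvd_pow h3
    obtain ⟨c, rfl⟩ := h2
    exact ⟨c, by nlinarith⟩
  have hmm : ∃ c, m * m' = c ^ 2 := by
    rcases hc with ⟨h1, -⟩ | ⟨h1, -⟩ <;> rcases hc' with ⟨h2, -⟩ | ⟨h2, -⟩ <;> subst h1 <;> subst h2
    · exact ⟨r, h⟩
    · exact two (b := r) (by rw [← h]; ring)
    · exact two (b := r) (by rw [← h]; ring)
    · obtain ⟨c, hc⟩ := two (a := 4 * (m * m')) (b := r) (by rw [← h]; ring)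
      exact two hc
  obtain ⟨c, hcc⟩ := hmm
  have e := sqf_int_eq hm hm' hcc
  subst e
  rcases hc with ⟨h1, h3⟩ | ⟨h1, h3⟩ <;> rcases hc' with ⟨h2, h4⟩ | ⟨h2, h4⟩
  · rw [h1, h2]
  · omega
  · omega
  · rw [h1, h2]

/-- Twists of one discriminant by the same number are equal. -/
theorem twist_inj {d d' d₀ e m m' : ℤ} (hF : Fund d) (hF' : Fund d') (h₀ : d₀ ≠ 0)
    (h : d * d₀ = e * m ^ 2) (h' : d' * d₀ = e * m' ^ 2) : d = d' := by
  have h1 : (d * d') * d₀ ^ 2 = (e * m * m') ^ 2 := by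
    calc (d * d') * d₀ ^ 2 = (d * d₀) * (d' * d₀) := by ring
      _ = _ := by rw [h, h']; ring
  have h2 : d₀ ^ 2 ∣ (e * m * m') ^ 2 := ⟨d * d', by rw [← h1]; ring⟩
  obtain ⟨c, hc⟩ := (Int.pow_dvd_pow_iff two_ne_zero).1 h2
  refine fund_inj' (r := c) hF hF' ?_
  have h4 : (d * d') * d₀ ^ 2 = c ^ 2 * d₀ ^ 2 := by rw [h1, hc]; ring
  exact mul_right_cancel₀ (pow_ne_zero 2 h₀) h4

/-- For an odd prime `p` dividing the discriminant `d`, `d` is a square modulo `4 p`. -/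
theorem square_of_dvd {d : ℤ} (hd : d % 4 = 0 ∨ d % 4 = 1) {p : ℕ} (hp : p.Prime) (hp2 : p ≠ 2)
    (h : (p : ℤ) ∣ d) : ∃ t : ℤ, (4 * (p : ℤ)) ∣ t ^ 2 - d := by
  have hodd : (p : ℤ) % 2 = 1 := by
    rcases hp.eq_two_or_odd with h | h
    · exact absurd h hp2
    · omega
  have key : ∃ x : ℤ, (p : ℤ) ∣ x ^ 2 - d ∧ x % 2 = d % 2 := by
    by_cases hpar : d % 2 = 0
    · exact ⟨0, by simpa using h, by omega⟩
    · refine ⟨p, dvd_sub (dvd_pow_self _ two_ne_zero) h, by omega⟩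
  obtain ⟨x, hx1, hx2⟩ := key
  refine ⟨x, ?_⟩
  have hcop : IsCoprime (4 : ℤ) (p : ℤ) := by
    have h2 : IsCoprime (2 : ℤ) (p : ℤ) := by
      rw [Int.isCoprime_iff_gcd_eq_one]
      have : Nat.Coprime 2 p := by
        rw [Nat.coprime_primes Nat.prime_two hp]
        exact fun h => hp2 h.symm
      exact_mod_cast this
    have h4 : (4 : ℤ) = 2 ^ 2 := by norm_num
    rw [h4]
    exact h2.pow_left
  exact hcop.mul_dvd (splita_aux1 hd hx2) hx1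

/-- The local statement: if `d d₀ = e m²` and the odd prime `p ∤ e` splits in `ℚ(√e)` exactly if
`(d₀/p) = 1`, then `p` is not inert in `ℚ(√d)`. -/
theorem not_inert {d d₀ e m : ℤ} (hF : Fund d) (hF₀ : Fund d₀) (hFe : Fund e)
    (h : d * d₀ = e * m ^ 2) {p : ℕ} (hp : p.Prime) (hp2 : p ≠ 2) (hpe : ¬ ((p : ℤ) ∣ e))
    (hP : jacobiSym d₀ p = 1 ↔ ∃ t : ℤ, (4 * (p : ℤ)) ∣ t ^ 2 - e) :
    ∃ t : ℤ, (4 * (p : ℤ)) ∣ t ^ 2 - d := by
  have hpi : Prime (p : ℤ) := Nat.prime_iff_prime_int.1 hp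
  by_cases hpd : (p : ℤ) ∣ d
  · exact square_of_dvd (fund_mod hF) hp hp2 hpd
  have hp0 : ¬ (p : ℤ) ∣ d₀ := by
    intro h0
    have h1 : (p : ℤ) ∣ e * m ^ 2 := h ▸ h0.mul_left d
    have h2 : (p : ℤ) ∣ m := by
      rcases hpi.dvd_or_dvd h1 with h2 | h2
      · exact absurd h2 hpe
      · exact hpi.dvd_of_dvd_pow h2
    have h3 : (p : ℤ) ^ 2 ∣ d * d₀ := by
      rw [h]
      exact (pow_dvd_pow_of_dvd h2 2).trans (dvd_mul_left _ _)
    have hc : IsCoprime ((p : ℤ) ^ 2) d := (hpi.coprime_iff_not_dvd.2 hpd).pow_left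
    exact fund_sq hF₀ hp hp2 (hc.dvd_of_dvd_mul_left h3)
  have hpm : ¬ (p : ℤ) ∣ m := by
    intro hm
    have h1 : (p : ℤ) ∣ d * d₀ := by
      rw [h]
      exact (dvd_pow hm two_ne_zero).mul_left e
    rcases hpi.dvd_or_dvd h1 with h2 | h2
    · exact hpd h2
    · exact hp0 h2
  have j1 : jacobiSym d p * jacobiSym d₀ p = jacobiSym e p := by
    rw [← jacobiSym.mul_left, h, jacobiSym.mul_left, jacobiSym.sq_one' (splita_aux2 hp hpm), mul_one]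
  have j2 : (∃ t : ℤ, (4 * (p : ℤ)) ∣ t ^ 2 - e) ↔ jacobiSym e p = 1 := by
    rw [← split_iff (fund_mod hFe) hp hp2]
    exact ⟨fun h => ⟨hpe, h⟩, fun h => h.2⟩
  rw [j2] at hP
  have j3 : jacobiSym d p = 1 := by
    rcases jacobiSym.eq_one_or_neg_one (splita_aux2 hp hp0) with a | a
    · rw [a, mul_one] at j1
      rw [j1]
      exact hP.1 a
    · rcases jacobiSym.eq_one_or_neg_one (splita_aux2 hp hpe) with b | b
      · exact absurd (hP.2 b) (by rw [a]; norm_num)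
      · rw [a, b] at j1
        linarith
  exact ((split_iff (fund_mod hF) hp hp2).2 j3).2

theorem patSum_le {P : ℕ → Prop} {d d₀ e m : ℤ} (hP : ∀ p, P p ↔ jacobiSym d₀ p = 1)
    (hF : Fund d) (hF₀ : Fund d₀) (hFe : Fund e)
    (h : d * d₀ = e * m ^ 2) {x y : ℝ} (hx : 3 ≤ x) :
    patSum P e x y ≤ nonInertSum d x y := by
  classical
  unfold patSum nonInertSum
  refine Finset.sum_le_sum_of_subset_of_nonneg ?_ fun _ _ _ => by positivity
  intro p hp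
  rw [Finset.mem_filter] at hp ⊢
  obtain ⟨h1, h2, h3, h4, h5, h6⟩ := hp
  refine ⟨h1, h2, h3, h4, not_inert hF hF₀ hFe h h2 ?_ h5 ((hP p).symm.trans h6)⟩
  rintro rfl
  norm_num at h3
  linarith

/-- From (A) for all patterns to the twists of one discriminant. -/
theorem twists_of_patterns {k : ℕ} {c θ δ X₀ : ℝ} (hc : 0 < c)
    (hA : ∀ (P : ℕ → Prop) (X : ℝ), X₀ ≤ X → ∀ F : Finset ℤ,
      (∀ d ∈ F, Fund d ∧ |(d : ℝ)| ≤ X ∧ patSum P d (X ^ c) (X ^ θ) < δ) → F.card ≤ 2 * k) :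
    ∀ X : ℝ, max X₀ (3 ^ (1 / c)) ≤ X → ∀ d₀ : ℤ, Fund d₀ → ∀ F : Finset ℤ,
      (∀ d ∈ F, Fund d ∧ (∃ e m : ℤ, Fund e ∧ |(e : ℝ)| ≤ X ∧ d * d₀ = e * m ^ 2) ∧
        nonInertSum d (X ^ c) (X ^ θ) < δ) → F.card ≤ 2 * k := by
  classical
  intro X hX d₀ hF₀ F hF
  have hX0 : X₀ ≤ X := (le_max_left _ _).trans hX
  have hX3 : (3 : ℝ) ≤ X ^ c := by
    have h1 : (3 : ℝ) ^ (1 / c) ≤ X := (le_max_right _ _).trans hX
    calc (3 : ℝ) = ((3 : ℝ) ^ (1 / c)) ^ c := by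
          rw [← Real.rpow_mul (by norm_num), one_div_mul_cancel hc.ne', Real.rpow_one]
      _ ≤ X ^ c := Real.rpow_le_rpow (by positivity) h1 hc.le
  have hex : ∀ d : ℤ, ∃ e m : ℤ, d ∈ F → Fund e ∧ |(e : ℝ)| ≤ X ∧ d * d₀ = e * m ^ 2 := by
    intro d
    by_cases hd : d ∈ F
    · obtain ⟨-, ⟨e, m, h⟩, -⟩ := hF d hd
      exact ⟨e, m, fun _ => h⟩
    · exact ⟨0, 0, fun h => absurd h hd⟩
  choose ef mf hef using hex
  have hcard : (F.image ef).card = F.card := by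
    apply Finset.card_image_of_injOn
    intro d hd d' hd' hee
    obtain ⟨-, -, h1⟩ := hef d hd
    obtain ⟨-, -, h2⟩ := hef d' hd'
    have hee' : ef d = ef d' := hee
    rw [← hee'] at h2
    exact twist_inj (hF d hd).1 (hF d' hd').1 (fund_ne hF₀) h1 h2
  rw [← hcard]
  obtain ⟨P, hP⟩ : ∃ P : ℕ → Prop, ∀ p, P p ↔ jacobiSym d₀ p = 1 :=
    ⟨fun p => jacobiSym d₀ p = 1, fun _ => Iff.rfl⟩
  refine hA P X hX0 _ ?_
  intro e he
  obtain ⟨d, hd, rfl⟩ := Finset.mem_image.1 he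
  obtain ⟨h1, h2, h3⟩ := hef d hd
  exact ⟨h1, h2, (patSum_le hP (hF d hd).1 hF₀ h1 h3 hX3).trans_lt (hF d hd).2.2⟩

end H18T
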