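import Pool.Agent.W_aaa0df_h18.Twist18

set_option autoImplicit false

/-!
# Prescribed splitting patterns: the twists of one discriminant, with any bound `M` for the number of exceptions
-/

namespace H18T

open Finset Real Twist

/-- From (A) for all patterns to the twists of one discriminant. -/
theorem twists_of_patternsM {M : ℕ} {c θ δ X₀ : ℝ} (hc : 0 < c)
    (hA : ∀ (P : ℕ → Prop) (X : ℝ), X₀ ≤ X → ∀ F : Finset ℤ,
      (∀ d ∈ F, Fund d ∧ |(d : ℝ)| ≤ X ∧ patSum P d (X ^ c) (X ^ θ) < δ) → F.card ≤ M) :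
    ∀ X : ℝ, max X₀ (3 ^ (1 / c)) ≤ X → ∀ d₀ : ℤ, Fund d₀ → ∀ F : Finset ℤ,
      (∀ d ∈ F, Fund d ∧ (∃ e m : ℤ, Fund e ∧ |(e : ℝ)| ≤ X ∧ d * d₀ = e * m ^ 2) ∧
        nonInertSum d (X ^ c) (X ^ θ) < δ) → F.card ≤ M := by
  classical
  intro X hX d₀ hF₀ F hF
  have hX0 : X₀ ≤ X := (le_max_left _ _).trans hX
  have hX3 : (3 : ℝ) ≤ X ^ c := by
    have h1 : (3 : ℝ) ^ (1 / c) ≤ X := (le_max_right _ _).trans hX
    calc (3 : ℝ) = ((3 : ℝ) ^ (1 / c)) ^ c := by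
          rw [← Real.rpow_mul (by norm_num), one_div_mul_cancel hc.ne', Real.rpow_one]
      _ ≤ X ^ c := Real.rpow_le_rpow (by positivity) h1 hc.le
  have hex : ∀ d : ℤ, ∃ e m : ℤ, d ∈ F → Fund e ∧ |(e : ℝ)| ≤ X ∧ d * d₀ = e * m ^ 2 := by
    intro d
    by_cases hd : d ∈ F
    · obtain ⟨-, ⟨e, m, h⟩, -⟩ := hF d hd
      exact ⟨e, m, fun _ => h⟩
    · exact ⟨0, 0, fun h => absurd h hd⟩
  choose ef mf hef using hex
  have hcard : (F.image ef).card = F.card := by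
    apply Finset.card_image_of_injOn
    intro d hd d' hd' hee
    obtain ⟨-, -, h1⟩ := hef d hd
    obtain ⟨-, -, h2⟩ := hef d' hd'
    have hee' : ef d = ef d' := hee
    rw [← hee'] at h2
    exact twist_inj (hF d hd).1 (hF d' hd').1 (fund_ne hF₀) h1 h2
  rw [← hcard]
  obtain ⟨P, hP⟩ : ∃ P : ℕ → Prop, ∀ p, P p ↔ jacobiSym d₀ p = 1 :=
    ⟨fun p => jacobiSym d₀ p = 1, fun _ => Iff.rfl⟩
  refine hA P X hX0 _ ?_
  intro e he
  obtain ⟨d, hd, rfl⟩ := Finset.mem_image.1 he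
  obtain ⟨h1, h2, h3⟩ := hef d hd
  exact ⟨h1, h2, (patSum_le hP (hF d hd).1 hF₀ h1 h3 hX3).trans_lt (hF d hd).2.2⟩

end H18T
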